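import Mathlib
import Pool.Agent.H67.UR2

namespace Pool.Agent.Results.MP_a7dadb_al.NoCommon

open Pool.Agent.H67.UR

/-- Sequences of endomorphisms of bounded complexity. -/
noncomputable def RR : Subring (∀ m : ℕ, E m) where
  carrier := {s | ∃ N, ∀ m, S m N (s m)}
  zero_mem' := ⟨0, fun _ => ⟨_, _, St.zero⟩⟩
  one_mem' := ⟨0, fun _ => ⟨_, _, St.one⟩⟩
  add_mem' := by
    rintro s t ⟨N, hN⟩ ⟨M, hM⟩
    refine ⟨2 * (N + M), fun m => ?_⟩
    obtain ⟨P, Q, h⟩ := (hN m).mono (M := N + M) (by omega)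
    obtain ⟨P', Q', h'⟩ := (hM m).mono (M := N + M) (by omega)
    exact ⟨_, _, h.add h'⟩
  mul_mem' := by
    rintro s t ⟨N, hN⟩ ⟨M, hM⟩
    refine ⟨2 * (N + M), fun m => ?_⟩
    obtain ⟨P, Q, h⟩ := (hN m).mono (M := N + M) (by omega)
    obtain ⟨P', Q', h'⟩ := (hM m).mono (M := N + M) (by omega)
    exact ⟨_, _, h.mul h'⟩
  neg_mem' := by
    rintro s ⟨N, hN⟩
    refine ⟨N, fun m => ?_⟩
    obtain ⟨P, Q, h⟩ := hN m
    exact ⟨_, _, h.neg⟩

/-- There is a unit-regular ring `R` with an element `a` such that no `w` has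
`a^k w^k a^k = a^k` for all `k ≥ 1`. -/
theorem result : ∃ (R : Type) (_ : Ring R),
    (∀ r : R, ∃ u : Rˣ, r * (u : R) * r = r) ∧
    ∃ a : R, ∀ w : R, ∃ k : ℕ, 1 ≤ k ∧ a ^ k * w ^ k * a ^ k ≠ a ^ k := by
  refine ⟨RR, inferInstance, ?_, ⟨aa, 1, fun m => ⟨_, _, aa_St le_rfl⟩⟩, ?_⟩
  · rintro ⟨s, N, hN⟩
    choose u v h1 h2 h3 h4 h5 using fun m => unif (hN m)
    refine ⟨⟨⟨u, _, h4⟩, ⟨v, _, h5⟩, ?_, ?_⟩, ?_⟩
    · exact Subtype.ext (funext h1)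
    · exact Subtype.ext (funext h2)
    · exact Subtype.ext (funext h3)
  · rintro ⟨w, N, hN⟩
    by_contra hc
    push Not at hc
    obtain ⟨P, Q, h⟩ := (hN (4 * (N + 1) + 1)).mono (M := N + 1) (by omega)
    refine nogood (by omega) le_rfl h (fun k hk => ?_)
    have := congrFun (congrArg Subtype.val (hc k hk)) (4 * (N + 1) + 1)
    simpa using this

end Pool.Agent.Results.MP_a7dadb_al.NoCommon
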